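import Pool.Agent.SOR.Stmts3

/-!
# Squad SOR, row XSG: an additional permutation of order prime to `ℓ`

For `d` a set of integers let `X_d` be the set of the `x` such that `σ ^ j x = x` iff `j ∈ d`.  The
group `P × ⟨σ⟩` acts freely on `X_d`; XRE is used for this group.
-/

open scoped BigOperators

noncomputable section

namespace Pool.Agent.SOR.H3

section rl

variable (ℓ : ℕ) [Fact ℓ.Prime]

theorem mem_Rl {q : ℚ} : q ∈ Rl ℓ ↔ ¬ ℓ ∣ q.den := Iff.rfl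

theorem rl_of_mul {q : ℚ} {m : ℕ} {a : ℤ} (hm : ¬ ℓ ∣ m) (h : q * m = a) : q ∈ Rl ℓ := by
  have hm0 : (m : ℚ) ≠ 0 := by
    intro h0
    have h1 : m = 0 := by exact_mod_cast h0
    exact hm (h1 ▸ dvd_zero _)
  have hq : q = Rat.divInt a m := by
    rw [Rat.divInt_eq_div, eq_div_iff (by exact_mod_cast hm0)]
    exact_mod_cast h
  rw [mem_Rl]
  intro hd
  have h2 := Rat.den_dvd a m
  rw [← hq] at h2
  exact hm (hd.trans (by exact_mod_cast h2))

theorem exists_pow (v : ℚ) : ∃ f : ℕ, (ℓ : ℚ) ^ f * v ∈ Rl ℓ := by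
  have hp : Nat.Prime ℓ := Fact.out
  obtain ⟨t, m, hm, hden⟩ := Nat.exists_eq_pow_mul_and_not_dvd v.den_ne_zero ℓ hp.one_lt.ne'
  refine ⟨t, rl_of_mul ℓ (a := v.num) hm ?_⟩
  have h1 := Rat.mul_den_eq_num v
  rw [hden] at h1
  rw [← h1]
  push_cast
  ring

theorem nat_mem (n : ℕ) : (n : ℚ) ∈ Rl ℓ := natCast_mem (Rl ℓ) n

theorem int_mem (n : ℤ) : (n : ℚ) ∈ Rl ℓ := intCast_mem (Rl ℓ) n

theorem exists_pow_fin (S : Finset ℚ) : ∃ f : ℕ, ∀ v ∈ S, (ℓ : ℚ) ^ f * v ∈ Rl ℓ := by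
  classical
  induction S using Finset.induction_on with
  | empty => exact ⟨0, by simp⟩
  | insert a S _ ih =>
    obtain ⟨f, hf⟩ := ih
    obtain ⟨g, hg⟩ := exists_pow ℓ a
    have hl : ∀ n : ℕ, (ℓ : ℚ) ^ n ∈ Rl ℓ := fun n => pow_mem (nat_mem ℓ ℓ) n
    refine ⟨f + g, ?_⟩
    intro v hv
    rcases Finset.mem_insert.1 hv with rfl | hv
    · rw [pow_add, mul_assoc]
      exact mul_mem (hl f) hg
    · rw [add_comm, pow_add, mul_assoc]
      exact mul_mem (hl g) (hf v hv)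

theorem exists_N {P X : Type} [CommGroup P] [Finite P] (hP : IsPGroup ℓ P) (σ : Equiv.Perm X)
    (hσ : (orderOf σ).Coprime ℓ) (S : Finset ℚ) :
    ∃ N : ℕ, σ ^ N = 1 ∧ (∀ p : P, p ^ N = p) ∧ ∀ v ∈ S, ((N : ℚ) - 1) * v ∈ Rl ℓ := by
  obtain ⟨f, hf⟩ := exists_pow_fin ℓ S
  obtain ⟨c, hc⟩ := IsPGroup.iff_card.1 hP
  have hco : (orderOf σ).Coprime (ℓ ^ (c + f)) := Nat.Coprime.pow_right _ hσ
  obtain ⟨N, hN0, hN1⟩ := Nat.chineseRemainder hco 0 1
  refine ⟨N, ?_, ?_, ?_⟩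
  · exact orderOf_dvd_iff_pow_eq_one.1 ((Nat.modEq_zero_iff_dvd).1 hN0)
  · intro p
    have h1 : orderOf p ∣ ℓ ^ (c + f) := by
      refine (orderOf_dvd_natCard p).trans ?_
      rw [hc]
      exact pow_dvd_pow _ (Nat.le_add_right _ _)
    have h2 : p ^ N = p ^ 1 := pow_eq_pow_iff_modEq.2 (hN1.of_dvd h1)
    rw [h2, pow_one]
  · intro v hv
    have h1 : ((ℓ ^ (c + f) : ℕ) : ℤ) ∣ (N : ℤ) - ((1 : ℕ) : ℤ) := Nat.modEq_iff_dvd.1 hN1.symm
    obtain ⟨e, he⟩ := h1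
    have h2 : (N : ℚ) - 1 = (ℓ : ℚ) ^ (c + f) * (e : ℚ) := by
      have h3 : (((N : ℤ) - ((1 : ℕ) : ℤ) : ℤ) : ℚ) = ((((ℓ ^ (c + f) : ℕ) : ℤ) * e : ℤ) : ℚ) := by
        rw [he]
      push_cast at h3
      exact h3
    rw [h2, pow_add]
    have h4 : (ℓ : ℚ) ^ c * (ℓ : ℚ) ^ f * (e : ℚ) * v =
        ((ℓ : ℚ) ^ c * (e : ℚ)) * ((ℓ : ℚ) ^ f * v) := by ring
    rw [h4]
    exact mul_mem (mul_mem (pow_mem (nat_mem ℓ ℓ) c) (int_mem ℓ e)) (hf v hv)

end rl

section res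

variable {X : Type}

/-- the restriction of an action -/
def resHom {H : Type} [Group H] (Y : X → Prop) (i : H →* Equiv.Perm X)
    (h : ∀ g x, Y (i g x) ↔ Y x) : H →* Equiv.Perm {x // Y x} where
  toFun g := (i g).subtypePerm (h g)
  map_one' := by
    ext x
    change i 1 x.1 = x.1
    rw [map_one, Equiv.Perm.one_apply]
  map_mul' g g' := by
    ext x
    change i (g * g') x.1 = i g (i g' x.1)
    rw [map_mul, Equiv.Perm.mul_apply]

theorem resHom_apply {H : Type} [Group H] (Y : X → Prop) (i : H →* Equiv.Perm X)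
    (h : ∀ g x, Y (i g x) ↔ Y x) (g : H) (x : {x // Y x}) :
    ((resHom Y i h g x : {x // Y x}) : X) = i g x := rfl

end res

section bdl

variable {Γ : Type} [Group Γ] (D : Bd Γ)

theorem comm_a_a3 : Commute D.a D.a3 := by
  unfold Bd.a3
  have h := D.r2
  have h1 : Commute D.a D.A := h
  exact (h1.inv_right).mul_right (Commute.refl _)

theorem comm_a_T : Commute D.a D.T := by
  unfold Bd.T
  have h := D.r1
  have h3 : Commute D.a ((D.a * D.b) ^ 3) := by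
    have e1 : (D.a * D.b) ^ 3 = D.a * D.b * D.a * (D.b * D.a * D.b) := by
      rw [pow_succ, pow_two]
      simp only [mul_assoc]
    change D.a * _ = _ * D.a
    rw [e1, ← h]
    calc D.a * (D.a * D.b * D.a * (D.a * D.b * D.a))
        = D.a * (D.a * D.b * D.a) * (D.a * D.b * D.a) := by simp only [mul_assoc]
      _ = D.a * (D.b * D.a * D.b) * (D.a * D.b * D.a) := by rw [h]
      _ = (D.a * D.b * D.a) * (D.b * (D.a * D.b * D.a)) := by simp only [mul_assoc]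
      _ = (D.a * D.b * D.a) * ((D.b * D.a * D.b) * D.a) := by simp only [mul_assoc]
      _ = (D.a * D.b * D.a) * ((D.a * D.b * D.a) * D.a) := by rw [h]
      _ = (D.a * D.b * D.a) * (D.a * D.b * D.a) * D.a := by simp only [mul_assoc]
  have h6 : (D.a * D.b) ^ 6 = (D.a * D.b) ^ 3 * (D.a * D.b) ^ 3 := by
    rw [← pow_add]
  rw [h6]
  exact h3.mul_right h3

end bdl

section main

variable {Γ P X : Type} [Group Γ] [CommGroup P] (i : Γ →* Equiv.Perm X) (q : P →* Equiv.Perm X)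
  (σ : Equiv.Perm X)

/-- the `N`-th power of a relation -/
theorem pow_rel (hc : ∀ g p x, i g (q p x) = q p (i g x)) (hg : ∀ g x, i g (σ x) = σ (i g x))
    (hq : ∀ p x, q p (σ x) = σ (q p x)) (N : ℕ) (hN : σ ^ N = 1) (hp : ∀ p : P, p ^ N = p)
    {s t : Γ} (hst : Commute s t) (k l : ℤ) (p : P) (j : ℤ) (x : X)
    (h : i (s ^ k * t ^ l) x = q p ((σ ^ j) x)) : i (s ^ (N * k) * t ^ (N * l)) x = q p x := by
  have c1 : Commute (i (s ^ k * t ^ l)) (q p) := Equiv.ext fun y => hc _ _ y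
  have c2 : Commute (i (s ^ k * t ^ l)) σ := Equiv.ext fun y => hg _ y
  have c3 : Commute (q p) σ := Equiv.ext fun y => hq _ y
  have c4 : Commute (i (s ^ k * t ^ l)) (q p * σ ^ j) := c1.mul_right (c2.zpow_right j)
  have h1 : ∀ m : ℕ, ((i (s ^ k * t ^ l)) ^ m) x = ((q p * σ ^ j) ^ m) x := by
    intro m
    induction m with
    | zero => rfl
    | succ m ih =>
      have h2 : (i (s ^ k * t ^ l)) ^ (m + 1) = i (s ^ k * t ^ l) * (i (s ^ k * t ^ l)) ^ m :=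
        pow_succ' _ _
      rw [h2, Equiv.Perm.mul_apply, ih, ← Equiv.Perm.mul_apply, (c4.pow_right m).eq,
        Equiv.Perm.mul_apply, h, pow_succ, Equiv.Perm.mul_apply]
      rfl
  have h3 := h1 N
  have e1 : (q p * σ ^ j) ^ N = q p := by
    rw [(c3.zpow_right j).mul_pow, ← map_pow, hp p, ← zpow_natCast, ← zpow_mul, mul_comm j,
      zpow_mul, zpow_natCast, hN, one_zpow, mul_one]
  have e2 : (i (s ^ k * t ^ l)) ^ N = i (s ^ (N * k) * t ^ (N * l)) := by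
    rw [← map_pow, ((hst.zpow_right l).zpow_left k).mul_pow, ← zpow_natCast, ← zpow_natCast,
      ← zpow_mul, ← zpow_mul, mul_comm k, mul_comm l]
  rw [e1, e2] at h3
  exact h3

end main

/-- the fibre over a set of integers -/
theorem fibre (xre : XreStmt) (ℓ : ℕ) [Fact ℓ.Prime] (Γ P X : Type) [Group Γ] [CommGroup P]
    [Finite P] [Fintype X] (D : Bd Γ) (i : Γ →* Equiv.Perm X) (q : P →* Equiv.Perm X) (p₀ : P)
    (σ : Equiv.Perm X) (hc : ∀ g p x, i g (q p x) = q p (i g x))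
    (hg : ∀ g x, i g (σ x) = σ (i g x)) (hq : ∀ p x, q p (σ x) = σ (q p x))
    (hTs : i D.Ts = q p₀ * σ) (hfree : ∀ p x, q p x = x → p = 1) (r₁ r₂ : P → ℚ)
    (hr₁ : ∀ p p', r₁ (p * p') - r₁ p - r₁ p' ∈ Rl ℓ)
    (hr₂ : ∀ p p', r₂ (p * p') - r₂ p - r₂ p' ∈ Rl ℓ)
    (κ₁ κ₂ μ₁ μ₂ η ζ δ m : X → ℚ) (hF : Fm (Rl ℓ) D i q r₁ r₂ κ₁ κ₂ μ₁ μ₂ η ζ δ m)
    (hinv : ∀ F ∈ ({κ₁, κ₂, μ₁, μ₂, η, ζ, δ, m} : Set (X → ℚ)), ∀ x, F (σ x) = F x)
    (N : ℕ) (hN : σ ^ N = 1) (hp : ∀ p : P, p ^ N = p)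
    (hv : ∀ F ∈ ({κ₁, κ₂, μ₁, μ₂, η, ζ, δ, m} : Set (X → ℚ)), ∀ x,
      ((N : ℚ) - 1) * F x ∈ Rl ℓ) (Y : X → Prop) [Fintype {x // Y x}] (s : Set ℤ)
    (hY : ∀ x, Y x ↔ {j : ℤ | (σ ^ j) x = x} = s) :
    (∑ x : {x // Y x}, (r₁ p₀ * r₂ p₀ - κ₁ x * κ₂ x -
      12 * ((μ₁ x - μ₁ (i D.B⁻¹ x)) * (μ₂ x - μ₂ (i D.B⁻¹ x)) + η x * ζ x -
        (μ₂ x - m x) * δ x + (r₁ p₀ - κ₁ x) * μ₂ x + μ₁ x * (r₂ p₀ - κ₂ x)))) / Nat.card P ∈
      Rl ℓ := by
  classical
  have cg : ∀ g : Γ, ∀ j : ℤ, Commute (i g) (σ ^ j) := fun g j =>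
    Commute.zpow_right (show Commute (i g) σ from Equiv.ext fun y => hg g y) j
  have cq : ∀ p : P, ∀ j : ℤ, Commute (q p) (σ ^ j) := fun p j =>
    Commute.zpow_right (show Commute (q p) σ from Equiv.ext fun y => hq p y) j
  have cg' : ∀ g : Γ, ∀ j : ℤ, ∀ x, i g ((σ ^ j) x) = (σ ^ j) (i g x) := fun g j x =>
    congrArg (fun f : Equiv.Perm X => f x) (cg g j)
  have cq' : ∀ p : P, ∀ j : ℤ, ∀ x, q p ((σ ^ j) x) = (σ ^ j) (q p x) := fun p j x =>
    congrArg (fun f : Equiv.Perm X => f x) (cq p j)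
  have hYi : ∀ g x, Y (i g x) ↔ Y x := by
    intro g x
    rw [hY, hY]
    have : {j : ℤ | (σ ^ j) (i g x) = i g x} = {j : ℤ | (σ ^ j) x = x} := by
      ext j
      simp only [Set.mem_ofPred_eq]
      rw [← cg', EmbeddingLike.apply_eq_iff_eq]
    rw [this]
  have hYq : ∀ p x, Y (q p x) ↔ Y x := by
    intro p x
    rw [hY, hY]
    have : {j : ℤ | (σ ^ j) (q p x) = q p x} = {j : ℤ | (σ ^ j) x = x} := by
      ext j
      simp only [Set.mem_ofPred_eq]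
      rw [← cq', EmbeddingLike.apply_eq_iff_eq]
    rw [this]
  have hYσ : ∀ (w : Subgroup.zpowers σ) x, Y ((Subgroup.zpowers σ).subtype w x) ↔ Y x := by
    rintro ⟨w, hw⟩ x
    obtain ⟨k, rfl⟩ := Subgroup.mem_zpowers_iff.1 hw
    change Y ((σ ^ k) x) ↔ Y x
    rw [hY, hY]
    have : {j : ℤ | (σ ^ j) ((σ ^ k) x) = (σ ^ k) x} = {j : ℤ | (σ ^ j) x = x} := by
      ext j
      simp only [Set.mem_ofPred_eq]
      rw [← Equiv.Perm.mul_apply, (Commute.zpow_zpow (Commute.refl σ) j k).eq,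
        Equiv.Perm.mul_apply, EmbeddingLike.apply_eq_iff_eq]
    rw [this]
  let ρ : Subgroup.zpowers σ →* Equiv.Perm {x // Y x} :=
    resHom Y (Subgroup.zpowers σ).subtype hYσ
  let Zs : Subgroup (Equiv.Perm {x // Y x}) := ρ.range
  have hz : ∀ z : Zs, ∃ j : ℤ, ∀ x : {x // Y x},
      ((((z : Equiv.Perm {x // Y x}) x) : {x // Y x}) : X) = (σ ^ j) x := by
    rintro ⟨z, ⟨⟨w, hw⟩, rfl⟩⟩
    obtain ⟨k, rfl⟩ := Subgroup.mem_zpowers_iff.1 hw
    exact ⟨k, fun x => rfl⟩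
  have hcomm : ∀ z z' : Zs, z * z' = z' * z := by
    intro z z'
    obtain ⟨j, hj⟩ := hz z
    obtain ⟨j', hj'⟩ := hz z'
    apply Subtype.ext
    apply Equiv.ext
    intro x
    apply Subtype.ext
    change (((z : Equiv.Perm {x // Y x}) ((z' : Equiv.Perm {x // Y x}) x) : {x // Y x}) : X) =
      (((z' : Equiv.Perm {x // Y x}) ((z : Equiv.Perm {x // Y x}) x) : {x // Y x}) : X)
    rw [hj, hj', hj', hj, ← Equiv.Perm.mul_apply, ← Equiv.Perm.mul_apply,
      (Commute.zpow_zpow (Commute.refl σ) j j').eq]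
  let cgr : CommGroup Zs := { (inferInstance : Group Zs) with mul_comm := hcomm }
  let qr : P →* Equiv.Perm {x // Y x} := resHom Y q hYq
  let ir : Γ →* Equiv.Perm {x // Y x} := resHom Y i hYi
  have hqz : ∀ (p : P) (z : Zs), qr p * (z : Equiv.Perm {x // Y x}) =
      (z : Equiv.Perm {x // Y x}) * qr p := by
    intro p z
    obtain ⟨j, hj⟩ := hz z
    apply Equiv.ext
    intro x
    apply Subtype.ext
    change q p (((z : Equiv.Perm {x // Y x}) x : {x // Y x}) : X) =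
      ((z : Equiv.Perm {x // Y x}) (qr p x) : {x // Y x})
    rw [hj, hj]
    exact cq' p j x
  let qs : P × Zs →* Equiv.Perm {x // Y x} :=
    { toFun := fun w => qr w.1 * (w.2 : Equiv.Perm {x // Y x})
      map_one' := by
        change qr 1 * ((1 : Zs) : Equiv.Perm {x // Y x}) = 1
        rw [map_one, Subgroup.coe_one, mul_one]
      map_mul' := by
        intro w w'
        change qr (w.1 * w'.1) * ((w.2 * w'.2 : Zs) : Equiv.Perm {x // Y x}) =
          qr w.1 * (w.2 : Equiv.Perm {x // Y x}) * (qr w'.1 * (w'.2 : Equiv.Perm {x // Y x}))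
        rw [map_mul]
        have h1 : ((w.2 * w'.2 : Zs) : Equiv.Perm {x // Y x}) =
          (w.2 : Equiv.Perm {x // Y x}) * (w'.2 : Equiv.Perm {x // Y x}) := rfl
        rw [h1, mul_assoc, mul_assoc, ← mul_assoc (qr w'.1), hqz w'.1 w.2, mul_assoc] }
  have hqs : ∀ (w : P × Zs) (x : {x // Y x}), ((qs w x : {x // Y x}) : X) =
      q w.1 (((w.2 : Equiv.Perm {x // Y x}) x : {x // Y x}) : X) := fun w x => rfl
  have hir : ∀ (g : Γ) (x : {x // Y x}), ((ir g x : {x // Y x}) : X) = i g x := fun g x => rfl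
  let zσ : Zs := ⟨ρ ⟨σ, Subgroup.mem_zpowers σ⟩, ⟨_, rfl⟩⟩
  -- the relation for elements
  have key : ∀ (s t : Γ), Commute s t → ∀ (k l : ℤ) (w : P × Zs) (x : {x // Y x}),
      ir (s ^ k * t ^ l) x = qs w x → i (s ^ (N * k) * t ^ (N * l)) (x : X) = q w.1 (x : X) := by
    intro s t hst k l w x h
    obtain ⟨j, hj⟩ := hz w.2
    have h1 := congrArg Subtype.val h
    rw [hir, hqs, hj] at h1
    exact pow_rel i q σ hc hg hq N hN hp hst k l w.1 j x h1
  have key1 : ∀ (s : Γ), ∀ (k : ℤ) (w : P × Zs) (x : {x // Y x}),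
      ir (s ^ k) x = qs w x → i (s ^ (N * k)) (x : X) = q w.1 (x : X) := by
    intro s k w x h
    have h1 := key s 1 (Commute.one_right s) k 0 w x (by rw [zpow_zero, mul_one]; exact h)
    rw [one_zpow, mul_one] at h1
    exact h1
  have conv : ∀ u v : ℚ, ((N : ℚ) - 1) * u ∈ Rl ℓ → ((N : ℚ) - 1) * v ∈ Rl ℓ →
      ∀ (k l : ℤ) (a : ℚ), a - ((N * k : ℤ) : ℚ) * u - ((N * l : ℤ) : ℚ) * v ∈ Rl ℓ →
        a - k * u - l * v ∈ Rl ℓ := by
    intro u v hu hv k l a h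
    have e1 : a - k * u - l * v = (a - ((N * k : ℤ) : ℚ) * u - ((N * l : ℤ) : ℚ) * v) +
        ((k : ℚ) * (((N : ℚ) - 1) * u) + (l : ℚ) * (((N : ℚ) - 1) * v)) := by
      push_cast
      ring
    rw [e1]
    exact add_mem h (add_mem (mul_mem (int_mem ℓ k) hu) (mul_mem (int_mem ℓ l) hv))
  have conv1 : ∀ u : ℚ, ((N : ℚ) - 1) * u ∈ Rl ℓ →
      ∀ (k : ℤ) (a : ℚ), a - ((N * k : ℤ) : ℚ) * u ∈ Rl ℓ → a - k * u ∈ Rl ℓ := by
    intro u hu k a h
    have h1 := conv u 0 hu (by rw [mul_zero]; exact zero_mem _) k 0 a (by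
      rw [mul_zero, sub_zero]
      exact h)
    rw [mul_zero, sub_zero] at h1
    exact h1
  have hinvz : ∀ F ∈ ({κ₁, κ₂, μ₁, μ₂, η, ζ, δ, m} : Set (X → ℚ)), ∀ (j : ℤ) x,
      F ((σ ^ j) x) = F x := by
    intro F hF' j
    have h1 : ∀ (n : ℕ) x, F ((σ ^ n) x) = F x := by
      intro n
      induction n with
      | zero => intro x; rfl
      | succ n ih =>
        intro x
        rw [pow_succ, Equiv.Perm.mul_apply, ih, hinv F hF']
    intro x
    cases j with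
    | ofNat n => exact h1 n x
    | negSucc n =>
      rw [zpow_negSucc]
      have h2 := h1 (n + 1) (((σ ^ (n + 1))⁻¹) x)
      rw [← h2, ← Equiv.Perm.mul_apply, mul_inv_cancel, Equiv.Perm.one_apply]
  have vκ₁ := hv κ₁ (by simp)
  have vκ₂ := hv κ₂ (by simp)
  have vμ₁ := hv μ₁ (by simp)
  have vμ₂ := hv μ₂ (by simp)
  have vη := hv η (by simp)
  have vζ := hv ζ (by simp)
  have vδ := hv δ (by simp)
  have vm := hv m (by simp)
  have res := xre Γ (P × Zs) {x // Y x} (Rl ℓ) D ir qs (p₀, zσ) ?_ ?_ ?_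
    (fun w => r₁ w.1) (fun w => r₂ w.1) ?_ ?_ (fun x => κ₁ x) (fun x => κ₂ x) (fun x => μ₁ x)
    (fun x => μ₂ x) (fun x => η x) (fun x => ζ x) (fun x => δ x) (fun x => m x) ?_
  · have hcard : Nat.card (P × Zs) = Nat.card P * Nat.card Zs := Nat.card_prod _ _
    rw [hcard] at res
    have hZ : (Nat.card Zs : ℚ) ≠ 0 := by
      have : Nat.card Zs ≠ 0 := Nat.card_pos.ne'
      exact_mod_cast this
    have h1 := mul_mem res (nat_mem ℓ (Nat.card Zs))
    rw [Nat.cast_mul, div_mul_eq_mul_div, mul_div_mul_right _ _ hZ] at h1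
    exact h1
  · intro g w x
    obtain ⟨j, hj⟩ := hz w.2
    apply Subtype.ext
    rw [hir, hqs, hqs, hj, hj, hir, hc, cg']
  · apply Equiv.ext
    intro x
    apply Subtype.ext
    rw [hir, hqs, hTs]
    rfl
  · rintro ⟨p, z⟩ x h
    obtain ⟨j, hj⟩ := hz z
    have h0 := key1 1 0 (p, z) x (by rw [zpow_zero, map_one]; exact h.symm)
    rw [one_zpow, map_one] at h0
    have h1 : p = 1 := hfree p x h0.symm
    have h2 := congrArg Subtype.val h
    rw [hqs, hj] at h2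
    change q p ((σ ^ j) x) = x at h2
    rw [h1, map_one] at h2
    have hjs : j ∈ s := by
      rw [← (hY x).1 x.2]
      exact h2
    have h3 : z = 1 := by
      apply Subtype.ext
      apply Equiv.ext
      intro y
      apply Subtype.ext
      rw [hj]
      have : j ∈ {j : ℤ | (σ ^ j) (y : X) = y} := by
        rw [(hY y).1 y.2]
        exact hjs
      exact this
    rw [h1, h3]
    rfl
  · intro w w'
    exact hr₁ w.1 w'.1
  · intro w w'
    exact hr₂ w.1 w'.1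
  · constructor
    · intro F hF' w x
      obtain ⟨j, hj⟩ := hz w.2
      have aux : ∀ F ∈ ({κ₁, κ₂, μ₁, μ₂, η, ζ, δ, m} : Set (X → ℚ)),
          F ((qs w x : {x // Y x}) : X) = F x := by
        intro F hF''
        rw [hqs, hj, hF.pinv F hF'', hinvz F hF'']
      simp only [Set.mem_insert_iff, Set.mem_singleton_iff] at hF'
      rcases hF' with rfl | rfl | rfl | rfl | rfl | rfl | rfl | rfl
      all_goals exact aux _ (by simp)
    · intro F hF' x
      simp only [Set.mem_insert_iff, Set.mem_singleton_iff] at hF'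
      rcases hF' with rfl | rfl | rfl | rfl | rfl | rfl | rfl | rfl
      all_goals exact hF.ainv _ (by simp) x
    · intro F hF' x
      simp only [Set.mem_insert_iff, Set.mem_singleton_iff] at hF'
      rcases hF' with rfl | rfl
      all_goals exact hF.binv _ (by simp) x
    · intro F hF' x
      simp only [Set.mem_insert_iff, Set.mem_singleton_iff] at hF'
      rcases hF' with rfl | rfl | rfl | rfl
      all_goals exact hF.Ainv _ (by simp) x
    · intro F hF' x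
      simp only [Set.mem_insert_iff, Set.mem_singleton_iff] at hF'
      rcases hF' with rfl | rfl
      all_goals exact hF.A'inv _ (by simp) x
    · intro F hF' x
      simp only [Set.mem_insert_iff, Set.mem_singleton_iff] at hF'
      rcases hF' with rfl | rfl
      all_goals exact hF.Tinv _ (by simp) x
    · intro x k w h
      exact conv1 _ (vκ₁ x) k _ (hF.k₁ x _ _ (key1 _ _ _ _ h))
    · intro x k w h
      exact conv1 _ (vκ₂ x) k _ (hF.k₂ x _ _ (key1 _ _ _ _ h))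
    · intro x k w h
      exact conv1 _ (vμ₁ x) k _ (hF.m₁ x _ _ (key1 _ _ _ _ h))
    · intro x k w h
      exact conv1 _ (vμ₂ x) k _ (hF.m₂ x _ _ (key1 _ _ _ _ h))
    · intro x k l w h
      have h1 := hF.e₁ x _ _ _ (key _ _ (comm_a_a3 D) _ _ _ _ h)
      refine conv _ _ ?_ (vμ₁ _) k l _ h1
      rw [mul_sub]
      exact sub_mem (vμ₁ x) (vη x)
    · intro x k l w h
      have h1 := hF.e₂ x _ _ _ (key _ _ (comm_a_a3 D) _ _ _ _ h)
      refine conv _ _ (vμ₂ x) ?_ k l _ h1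
      rw [mul_sub]
      exact sub_mem (vμ₂ _) (vζ x)
    · intro x k l w h
      have h1 := hF.t₁ x _ _ _ (key _ _ (comm_a_T D) _ _ _ _ h)
      refine conv _ _ (vμ₁ x) ?_ k l _ h1
      rw [mul_add]
      exact add_mem (vκ₁ x) (vδ x)
    · intro x k l w h
      exact conv _ _ (vm x) (vκ₂ x) k l _ (hF.t₂ x _ _ _ (key _ _ (comm_a_T D) _ _ _ _ h))

theorem xsg (xre : XreStmt) : XsgStmt := by
  intro ℓ _ Γ P X _ _ _ _ D i q p₀ σ hP hc hg hq hσ hTs hfree r₁ r₂ hr₁ hr₂ κ₁ κ₂ μ₁ μ₂ η ζ δ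
    m hF hinv
  classical
  obtain ⟨N, hN, hp, hv⟩ := exists_N ℓ hP σ hσ
    ((Finset.univ : Finset (Fin 8 × X)).image
      (fun z => (![κ₁, κ₂, μ₁, μ₂, η, ζ, δ, m] : Fin 8 → X → ℚ) z.1 z.2))
  have hv' : ∀ F ∈ ({κ₁, κ₂, μ₁, μ₂, η, ζ, δ, m} : Set (X → ℚ)), ∀ x,
      ((N : ℚ) - 1) * F x ∈ Rl ℓ := by
    intro F hF' x
    have h1 : ∃ k : Fin 8, (![κ₁, κ₂, μ₁, μ₂, η, ζ, δ, m] : Fin 8 → X → ℚ) k = F := by
      simp only [Set.mem_insert_iff, Set.mem_singleton_iff] at hF'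
      rcases hF' with rfl | rfl | rfl | rfl | rfl | rfl | rfl | rfl
      · exact ⟨0, rfl⟩
      · exact ⟨1, rfl⟩
      · exact ⟨2, rfl⟩
      · exact ⟨3, rfl⟩
      · exact ⟨4, rfl⟩
      · exact ⟨5, rfl⟩
      · exact ⟨6, rfl⟩
      · exact ⟨7, rfl⟩
    obtain ⟨k, rfl⟩ := h1
    exact hv _ (Finset.mem_image.2 ⟨(k, x), Finset.mem_univ _, rfl⟩)
  let ty : X → Set ℤ := fun x => {j : ℤ | (σ ^ j) x = x}
  have hsum : ∀ G : X → ℚ, ∑ x, G x = ∑ s ∈ (Finset.univ : Finset X).image ty,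
      ∑ x ∈ Finset.univ.filter (fun x => ty x = s), G x := fun G =>
    (Finset.sum_fiberwise_of_maps_to (fun x _ => Finset.mem_image_of_mem ty (Finset.mem_univ x))
      G).symm
  rw [hsum, Finset.sum_div]
  refine sum_mem fun s _ => ?_
  rw [Finset.sum_subtype (p := fun x => ty x = s) (F := inferInstance)
    (Finset.univ.filter (fun x => ty x = s)) (by simp)]
  exact fibre xre ℓ Γ P X D i q p₀ σ hc hg hq hTs hfree r₁ r₂ hr₁ hr₂ κ₁ κ₂ μ₁ μ₂ η ζ δ m hF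
    hinv N hN hp hv' (fun x => ty x = s) s (fun x => Iff.rfl)

end Pool.Agent.SOR.H3
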